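import Mathlib

/-!
THEOREM Z for the weak Hilbert property. The Gauss valuation ring: definitions.
-/

set_option autoImplicit false

namespace Pool.Agent.LibZ96

/-- Derivations of `L` preserving (the image of) `O` preserve its integral closure in `L`. For a
discrete valuation ring `O` and a finite separable extension `L` of its field of fractions this says
that `L` is unramified over `O`. `PresAt j x` is `Pres (stalkTo j x)`. -/
def Pres {O L : Type} [CommRing O] [Field L] (i : O →+* L) : Prop :=
  ∀ D : Derivation ℤ L L, (∀ x : O, ∃ y : O, D (i x) = i y) →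
    ∀ b : L, i.IsIntegralElem b → i.IsIntegralElem (D b)

/-- The ideal of the polynomials with coefficients in the maximal ideal. -/
noncomputable def gaussIdeal (O : Type) [CommRing O] [IsLocalRing O] (r : ℕ) :
    Ideal (MvPolynomial (Fin r) O) :=
  (IsLocalRing.maximalIdeal O).map MvPolynomial.C

theorem mem_gaussIdeal (O : Type) [CommRing O] [IsLocalRing O] (r : ℕ)
    (p : MvPolynomial (Fin r) O) :
    p ∈ gaussIdeal O r ↔ ∀ m, p.coeff m ∈ IsLocalRing.maximalIdeal O :=
  MvPolynomial.mem_map_C_iff

instance (O : Type) [CommRing O] [IsLocalRing O] (r : ℕ) : (gaussIdeal O r).IsPrime := by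
  have h : gaussIdeal O r = RingHom.ker (MvPolynomial.map (σ := Fin r) (IsLocalRing.residue O)) := by
    ext p
    rw [mem_gaussIdeal, RingHom.mem_ker, MvPolynomial.ext_iff]
    refine forall_congr' fun m => ?_
    rw [MvPolynomial.coeff_map, MvPolynomial.coeff_zero, IsLocalRing.residue_eq_zero_iff]
  rw [h]
  exact RingHom.ker_isPrime _

/-- The local ring at the generic point of the special fibre of affine space over `O`. -/
abbrev GaussRing (O : Type) [CommRing O] [IsLocalRing O] (r : ℕ) : Type :=
  Localization.AtPrime (gaussIdeal O r)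

/-- A polynomial outside `gaussIdeal` has a coefficient which is a unit. -/
theorem exists_isUnit_coeff (O : Type) [CommRing O] [IsLocalRing O] (r : ℕ)
    (g : MvPolynomial (Fin r) O) (hg : g ∈ (gaussIdeal O r).primeCompl) :
    ∃ m, IsUnit (g.coeff m) := by
  have h : ¬ g ∈ gaussIdeal O r := hg
  rw [mem_gaussIdeal] at h
  push Not at h
  obtain ⟨m, hm⟩ := h
  exact ⟨m, by simpa using hm⟩

/-- A polynomial outside `gaussIdeal` is not zero. -/
theorem ne_zero_of_primeCompl (O : Type) [CommRing O] [IsLocalRing O] (r : ℕ)
    (g : MvPolynomial (Fin r) O) (hg : g ∈ (gaussIdeal O r).primeCompl) : g ≠ 0 := by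
  rintro rfl
  exact hg (Ideal.zero_mem _)

open Classical in
/-- The homomorphism from the Gauss ring to a field `L`, for elements `s` of `L` which are
algebraically independent over `O`. -/
noncomputable def gaussHom {O L : Type} [CommRing O] [IsLocalRing O] [Field L] {r : ℕ}
    (i : O →+* L) (s : Fin r → L)
    (hs : Function.Injective (MvPolynomial.eval₂Hom i s)) : GaussRing O r →+* L :=
  IsLocalization.lift (M := (gaussIdeal O r).primeCompl) (g := MvPolynomial.eval₂Hom i s)
    fun g => isUnit_iff_ne_zero.2 fun h => ne_zero_of_primeCompl O r g g.2 (hs (by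
      rw [h, map_zero]))

theorem gaussHom_algebraMap {O L : Type} [CommRing O] [IsLocalRing O] [Field L] {r : ℕ}
    (i : O →+* L) (s : Fin r → L)
    (hs : Function.Injective (MvPolynomial.eval₂Hom i s)) (p : MvPolynomial (Fin r) O) :
    gaussHom i s hs (algebraMap _ (GaussRing O r) p) = MvPolynomial.eval₂ i s p :=
  IsLocalization.lift_eq _ _

end Pool.Agent.LibZ96
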