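import Pool.Agent.LibZ96.W3c
import Pool.Agent.LibK3G.WH2

/-!
THEOREM Z for the weak Hilbert property: row W3 in terms of `UnramOver`.
-/

set_option autoImplicit false

open AlgebraicGeometry CategoryTheory

namespace Pool.Agent.LibZ96

open Pool.Agent.LibHP Pool.Agent.LibK3G

theorem cov_of_unramOver {S : Scheme.{0}} [IsIntegral S] [IsLocallyNoetherian S]
    [CharZero S.functionField] (hn : ∀ x : S, IsIntegrallyClosed (S.presheaf.stalk x)) (N : Type)
    [Field N] [Algebra S.functionField N] [FiniteDimensional S.functionField N]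
    (h : UnramOver S N) : S1a_Cov (algebraMap S.functionField N) := by
  intro x
  obtain ⟨U, hU, hxU, -⟩ := S.isBasis_affineOpens.exists_subset_of_mem_open
    (Set.mem_univ x) isOpen_univ
  obtain ⟨U, hU, rfl⟩ := hU
  have hg : genericPoint S ∈ U := genericPoint_mem U _ hxU
  have hn' : ∀ U : S.Opens, IsAffineOpen U → genericPoint S ∈ U → IsIntegrallyClosed Γ(S, U) :=
    fun V hV hgV => isIntegrallyClosed_sections hn V hV hgV
  refine ⟨U, hU, hxU, ?_⟩
  obtain ⟨e, he1, he2, he3⟩ := exists_sections N U hU hg
  have hfin := finite_normalization hn' N U hU hg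
  have het0 : AlgebraicGeometry.Etale (genPt (S := S) N).fromNormalization := h
  have het : ((genPt (S := S) N).fromNormalization.app U).hom.Etale := by
    have h1 := HasRingHomProperty.appLE @Etale (genPt (S := S) N).fromNormalization het0 ⟨U, hU⟩
      ⟨(genPt (S := S) N).fromNormalization ⁻¹ᵁ U, hU.preimage _⟩ le_rfl
    rw [Scheme.Hom.appLE_eq_app] at h1
    exact h1
  let _ : Algebra Γ(S, U) N := ((algebraMap S.functionField N).comp
    (S.presheaf.germ U (genericPoint S) hg).hom).toAlgebra
  let _ : Algebra Γ(S, U) Γ((genPt (S := S) N).normalization,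
    (genPt (S := S) N).fromNormalization ⁻¹ᵁ U) :=
    ((genPt (S := S) N).fromNormalization.app U).hom.toAlgebra
  let e' : Γ((genPt (S := S) N).normalization, (genPt (S := S) N).fromNormalization ⁻¹ᵁ U) →ₐ[
      Γ(S, U)] N := { e with commutes' := he2 }
  let E : Γ((genPt (S := S) N).normalization, (genPt (S := S) N).fromNormalization ⁻¹ᵁ U) ≃ₐ[
      Γ(S, U)] integralClosure Γ(S, U) N :=
    AlgEquiv.ofBijective (e'.codRestrict (integralClosure Γ(S, U) N)
      (fun b => (he3 (e b)).2 ⟨b, rfl⟩)) ⟨fun a b hab => he1 (congrArg Subtype.val hab),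
        fun w => by
          obtain ⟨b, hb⟩ := (he3 w.1).1 w.2
          exact ⟨b, Subtype.ext hb⟩⟩
  have h1 : Module.Finite Γ(S, U) Γ((genPt (S := S) N).normalization,
    (genPt (S := S) N).fromNormalization ⁻¹ᵁ U) := hfin
  have h2 : Algebra.Etale Γ(S, U) Γ((genPt (S := S) N).normalization,
    (genPt (S := S) N).fromNormalization ⁻¹ᵁ U) := het
  exact ⟨Module.Finite.equiv E.toLinearEquiv, Algebra.Etale.of_equiv E⟩

/-- **Row W3**, in the form used by the assembly. -/
theorem presAt_comp_of_unramOver {k : Type} [Field k] [CharZero k] {X Z : Scheme.{0}} [IsIntegral X]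
    [IsIntegral Z] (f : X ⟶ Spec (CommRingCat.of k)) [Smooth f]
    (z : Z ⟶ Spec (CommRingCat.of k)) [IsProper z]
    (hn : ∀ p : Z, IsIntegrallyClosed (Z.presheaf.stalk p))
    (φ : X.functionField →+* Z.functionField) (hφfin : φ.Finite)
    (hφ : ∀ c : k, φ (toStalk f (genericPoint X) c) = toStalk z (genericPoint Z) c) (N : Type)
    [Field N] [Algebra Z.functionField N] (hν : Module.Finite Z.functionField N)
    (hcov : UnramOver Z N) (y : X) (hy : ringKrullDim (X.presheaf.stalk y) = 1)
    (h : PresAt φ y) : PresAt ((algebraMap Z.functionField N).comp φ) y := by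
  have hnoeth : IsLocallyNoetherian Z := LocallyOfFiniteType.isLocallyNoetherian z
  have hcz : CharZero Z.functionField :=
    charZero_of_injective_ringHom (toStalk z (genericPoint Z)).injective
  exact presAt_comp f z φ hφfin hφ (algebraMap Z.functionField N)
    ((RingHom.finite_algebraMap).2 hν) (cov_of_unramOver hn N hcov) y hy h

end Pool.Agent.LibZ96
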