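import Pool.Agent.LibZ96.G4c
import Pool.Agent.LibZ96.W3d
import Pool.Agent.LibK3G.MN1

/-!
THEOREM Z for the weak Hilbert property. Unramifiedness over the Gauss valuation ring, for dominant
rational maps which are not generically finite.
-/

set_option autoImplicit false

open AlgebraicGeometry CategoryTheory

namespace Pool.Agent.LibZ96

open Pool.Agent.LibHP Pool.Agent.LibK3G

theorem toStalk_generic {k : Type} [Field k] {X : Scheme.{0}} [IsIntegral X]
    (f : X ⟶ Spec (CommRingCat.of k)) (y : X) (c : k) :
    algebraMap (X.presheaf.stalk y) X.functionField (toStalk f y c) =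
      toStalk f (genericPoint X) c := by
  have h1 : X.presheaf.germ ⊤ y trivial ≫ X.presheaf.stalkSpecializes
      ((genericPoint_spec X).specializes trivial) = X.presheaf.germ ⊤ (genericPoint X) trivial :=
    TopCat.Presheaf.germ_stalkSpecializes _ _ _
  have h2 : toStalk f (genericPoint X) = (algebraMap (X.presheaf.stalk y) X.functionField).comp
      (toStalk f y) := by
    rw [toStalk, ← h1]
    rfl
  rw [h2]
  rfl

/-- The finite étale charts of a proper model. -/
theorem exists_chart {k : Type} [Field k] [CharZero k] {Z : Scheme.{0}} [IsIntegral Z]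
    (z : Z ⟶ Spec (CommRingCat.of k)) [IsProper z]
    (hn : ∀ p : Z, IsIntegrallyClosed (Z.presheaf.stalk p))
    (N : Type) [Field N] [Algebra Z.functionField N] [FiniteDimensional Z.functionField N]
    (hcov : UnramOver Z N) (V : ValuationSubring Z.functionField)
    (hk : ∀ c : k, toStalk z (genericPoint Z) c ∈ V) :
    ∃ (R : Type) (_ : CommRing R) (_ : IsDomain R) (_ : Algebra R Z.functionField)
      (_ : IsFractionRing R Z.functionField),
      (∀ r : R, algebraMap R Z.functionField r ∈ V) ∧
        FinEt ((algebraMap Z.functionField N).comp (algebraMap R Z.functionField)) := by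
  have hnoeth : IsLocallyNoetherian Z := LocallyOfFiniteType.isLocallyNoetherian z
  have hcz : CharZero Z.functionField :=
    charZero_of_injective_ringHom (toStalk z (genericPoint Z)).injective
  obtain ⟨p, hp⟩ := exists_center z V hk
  obtain ⟨U, hU, hpU, hfe⟩ := cov_of_unramOver hn N hcov p
  have hne : Nonempty U := ⟨⟨p, hpU⟩⟩
  have hg : genericPoint Z ∈ U :=
    ((genericPoint_spec Z).mem_open_set_iff U.isOpen).mpr (by simpa using ⟨p, hpU⟩)
  have hfr := functionField_isFractionRing_of_isAffineOpen Z U hU
  exact ⟨Γ(Z, U), inferInstance, inferInstance, inferInstance, hfr,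
    fun r => hp U hpU hg r, hfe⟩

/-- **Row G4a.** -/
theorem presAt_of_gauss {k : Type} [Field k] [CharZero k] {X Z : Scheme.{0}} [IsIntegral X]
    [IsIntegral Z] (f : X ⟶ Spec (CommRingCat.of k)) [Smooth f]
    (z : Z ⟶ Spec (CommRingCat.of k)) [IsProper z]
    (hn : ∀ p : Z, IsIntegrallyClosed (Z.presheaf.stalk p))
    (φ : X.functionField →+* Z.functionField)
    (hφ : ∀ c : k, φ (toStalk f (genericPoint X) c) = toStalk z (genericPoint Z) c) (r : ℕ)
    (s : Fin r → Z.functionField)
    (hs : @IsTranscendenceBasis (Fin r) X.functionField Z.functionField _ _ φ.toAlgebra s)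
    (y : X) (hy : ringKrullDim (X.presheaf.stalk y) = 1)
    (hinj : Function.Injective (MvPolynomial.eval₂Hom (stalkTo φ y) s))
    (h : Pres (gaussHom (stalkTo φ y) s hinj))
    (N : Type) [Field N] [Algebra Z.functionField N] (hν : Module.Finite Z.functionField N)
    (hcov : UnramOver Z N) (E : Type) [Field E] (j : X.functionField →+* E) (ψ : E →+* N)
    (hj : j.Finite) (hψ : ψ.comp j = (algebraMap Z.functionField N).comp φ) : PresAt j y := by
  have hdvr := isDiscreteValuationRing_stalk f y hy
  let _ : Algebra X.functionField Z.functionField := φ.toAlgebra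
  let _ : Algebra k Z.functionField := (toStalk z (genericPoint Z)).toAlgebra
  let _ : Algebra k X.functionField := (toStalk f (genericPoint X)).toAlgebra
  have htow : IsScalarTower k X.functionField Z.functionField :=
    IsScalarTower.of_algebraMap_eq fun c => (hφ c).symm
  have hess0 : Algebra.EssFiniteType k Z.functionField :=
    essFiniteType_functionField z fun _ => rfl
  let _ : Algebra (X.presheaf.stalk y) Z.functionField := (stalkTo φ y).toAlgebra
  have ht0 : IsScalarTower (X.presheaf.stalk y) X.functionField Z.functionField :=
    IsScalarTower.of_algebraMap_eq fun a => rfl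
  let _ : Algebra X.functionField E := j.toAlgebra
  have hfdE : FiniteDimensional X.functionField E := hj
  let _ : Algebra (X.presheaf.stalk y) E := (stalkTo j y).toAlgebra
  have ht1 : IsScalarTower (X.presheaf.stalk y) X.functionField E :=
    IsScalarTower.of_algebraMap_eq fun a => rfl
  let _ : Algebra E N := ψ.toAlgebra
  let _ : Algebra X.functionField N := ((algebraMap Z.functionField N).comp φ).toAlgebra
  have ht2 : IsScalarTower X.functionField E N := IsScalarTower.of_algebraMap_eq fun a =>
    (congrArg (fun q : X.functionField →+* N => q a) hψ).symm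
  have ht3 : IsScalarTower X.functionField Z.functionField N :=
    IsScalarTower.of_algebraMap_eq fun a => rfl
  let _ : Algebra (X.presheaf.stalk y) N :=
    ((algebraMap Z.functionField N).comp (stalkTo φ y)).toAlgebra
  have ht4 : IsScalarTower (X.presheaf.stalk y) E N := IsScalarTower.of_algebraMap_eq fun a =>
    (congrArg (fun q : X.functionField →+* N => q (algebraMap _ X.functionField a)) hψ).symm
  have ht5 : IsScalarTower (X.presheaf.stalk y) Z.functionField N :=
    IsScalarTower.of_algebraMap_eq fun a => rfl
  refine isIntegral_derivation_of_presGauss k (X.presheaf.stalk y) X.functionField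
    Z.functionField N E s hs hinj h ?_
  intro V hV
  refine exists_chart z hn N hcov V fun c => ?_
  rw [← hφ c, ← toStalk_generic f y c]
  exact hV (toStalk f y c)

end Pool.Agent.LibZ96
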