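import Pool.Agent.LibZ96.G0

/-!
THEOREM Z for the weak Hilbert property. The Gauss valuation ring is a discrete valuation ring.
-/

set_option autoImplicit false

namespace Pool.Agent.LibZ96

/-- **Row G1.** -/
instance isDiscreteValuationRing_gaussRing (O : Type) [CommRing O] [IsDomain O]
    [IsDiscreteValuationRing O] (r : ℕ) : IsDiscreteValuationRing (GaussRing O r) := by
  have hdom : IsDomain (GaussRing O r) :=
    IsLocalization.isDomain_of_le_nonZeroDivisors (GaussRing O r)
      (gaussIdeal O r).primeCompl_le_nonZeroDivisors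
  have hnoeth : IsNoetherianRing (GaussRing O r) :=
    IsLocalization.isNoetherianRing (gaussIdeal O r).primeCompl _ inferInstance
  have hinj : Function.Injective (algebraMap (MvPolynomial (Fin r) O) (GaussRing O r)) :=
    IsLocalization.injective _ (gaussIdeal O r).primeCompl_le_nonZeroDivisors
  obtain ⟨ϖ, hϖ⟩ := IsDiscreteValuationRing.exists_irreducible O
  have hmax : IsLocalRing.maximalIdeal (GaussRing O r) =
      Ideal.span {algebraMap (MvPolynomial (Fin r) O) (GaussRing O r) (MvPolynomial.C ϖ)} := by
    have h1 := IsLocalization.AtPrime.map_eq_maximalIdeal (gaussIdeal O r) (GaussRing O r)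
    have h2 : gaussIdeal O r = Ideal.span {MvPolynomial.C ϖ} := by
      change Ideal.map MvPolynomial.C (IsLocalRing.maximalIdeal O) = _
      rw [hϖ.maximalIdeal_eq, Ideal.map_span, Set.image_singleton]
    refine h1.symm.trans ((congrArg (Ideal.map (algebraMap (MvPolynomial (Fin r) O)
      (GaussRing O r))) h2).trans ?_)
    rw [Ideal.map_span, Set.image_singleton]
  have hnf : ¬ IsField (GaussRing O r) := by
    intro hf
    have h1 := IsLocalRing.isField_iff_maximalIdeal_eq.1 hf
    rw [hmax, Ideal.span_singleton_eq_bot] at h1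
    apply hϖ.ne_zero
    apply MvPolynomial.C_injective (Fin r) O
    apply hinj
    rw [h1, map_zero, map_zero]
  refine ((IsDiscreteValuationRing.TFAE (GaussRing O r) hnf).out 0 4).2 ?_
  rw [hmax]
  exact ⟨⟨_, rfl⟩⟩

end Pool.Agent.LibZ96
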