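import Pool.Agent.LibZ96.W3b
import Pool.Agent.LibHP.S2

/-!
THEOREM Z for the weak Hilbert property. The Gauss valuation trick: descent of unramifiedness from a
transcendental extension.
-/

set_option autoImplicit false

namespace Pool.Agent.LibZ96

open Pool.Agent.LibHP

/-- The homomorphism to the dual numbers given by a derivation of the coefficients. -/
noncomputable def coeffHom (E : Type) [CommRing E] (r : ℕ) (D : Derivation ℤ E E) :
    E →+* TrivSqZeroExt (MvPolynomial (Fin r) E) (MvPolynomial (Fin r) E) where
  toFun e := (MvPolynomial.C e, MvPolynomial.C (D e))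
  map_one' := by
    refine Prod.ext ?_ ?_
    · exact map_one _
    · change MvPolynomial.C (D 1) = 0
      rw [Derivation.map_one_eq_zero, map_zero]
  map_zero' := by
    refine Prod.ext ?_ ?_
    · exact map_zero _
    · change MvPolynomial.C (D 0) = 0
      rw [map_zero, map_zero]
  map_add' a b := by
    refine Prod.ext ?_ ?_
    · exact map_add _ _ _
    · change MvPolynomial.C (D (a + b)) = MvPolynomial.C (D a) + MvPolynomial.C (D b)
      rw [map_add, map_add]
  map_mul' a b := by
    refine Prod.ext ?_ ?_
    · exact map_mul _ _ _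
    · change MvPolynomial.C (D (a * b)) = MvPolynomial.C a * MvPolynomial.C (D b) +
        MvPolynomial.C (D a) * MvPolynomial.C b
      rw [Derivation.leibniz, smul_eq_mul, smul_eq_mul, map_add, map_mul, map_mul,
        mul_comm (MvPolynomial.C b)]

/-- The derivation of a polynomial ring acting on the coefficients. -/
theorem exists_coeff_derivation (E : Type) [CommRing E] (r : ℕ) (D : Derivation ℤ E E) :
    ∃ D' : Derivation ℤ (MvPolynomial (Fin r) E) (MvPolynomial (Fin r) E),
      (∀ a, D' (MvPolynomial.C a) = MvPolynomial.C (D a)) ∧ ∀ i, D' (MvPolynomial.X i) = 0 := by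
  let φ : MvPolynomial (Fin r) E →+*
      TrivSqZeroExt (MvPolynomial (Fin r) E) (MvPolynomial (Fin r) E) :=
    MvPolynomial.eval₂Hom (coeffHom E r D) fun i => TrivSqZeroExt.inl (MvPolynomial.X i)
  have hC : ∀ a, φ (MvPolynomial.C a) = (MvPolynomial.C a, MvPolynomial.C (D a)) := fun a =>
    MvPolynomial.eval₂Hom_C _ _ _
  have hX : ∀ i, φ (MvPolynomial.X i) = TrivSqZeroExt.inl (MvPolynomial.X i) := fun i =>
    MvPolynomial.eval₂Hom_X' _ _ _
  have hfst : ∀ p, (φ p).fst = p := by
    intro p
    induction p using MvPolynomial.induction_on with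
    | C a => rw [hC]; rfl
    | add p q hp hq => rw [map_add, TrivSqZeroExt.fst_add, hp, hq]
    | mul_X p i hp => rw [map_mul, TrivSqZeroExt.fst_mul, hp, hX]; rfl
  refine ⟨Derivation.mk' (AddMonoidHom.toIntLinearMap
    { toFun := fun p => (φ p).snd
      map_zero' := by rw [map_zero]; rfl
      map_add' := fun a b => by rw [map_add]; rfl }) ?_, ?_, ?_⟩
  · intro a b
    change (φ (a * b)).snd = a • (φ b).snd + b • (φ a).snd
    rw [map_mul, TrivSqZeroExt.snd_mul, hfst, hfst, op_smul_eq_smul]
  · intro a
    change (φ (MvPolynomial.C a)).snd = _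
    rw [hC]
    rfl
  · intro i
    change (φ (MvPolynomial.X i)).snd = _
    rw [hX]
    rfl

/-- **Row G2.** Unramifiedness at a discrete valuation ring `O` of a finite extension `E` of its
field of fractions can be tested after adjoining independent variables. -/
theorem pres_of_gauss (O K E N : Type) [CommRing O] [IsDomain O] [Field K] [CharZero K]
    [Algebra O K] [IsFractionRing O K] [Field E] [Algebra K E] [Algebra O E]
    [IsScalarTower O K E] [FiniteDimensional K E] [Field N] [Algebra E N] [Algebra K N]
    [IsScalarTower K E N] [Algebra O N] [IsScalarTower O E N] (r : ℕ) (s : Fin r → N)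
    (hs : AlgebraicIndependent K s)
    (halg : ∀ n : N, ∃ p : Polynomial (MvPolynomial (Fin r) K), p ≠ 0 ∧
      p.eval₂ (MvPolynomial.aeval (R := K) s).toRingHom n = 0)
    (O' : Type) [CommRing O'] [Algebra (MvPolynomial (Fin r) O) O']
    (M : Submonoid (MvPolynomial (Fin r) O)) [IsLocalization M O'] (i' : O' →+* N)
    (hi' : ∀ p : MvPolynomial (Fin r) O,
      i' (algebraMap _ O' p) = MvPolynomial.eval₂ (algebraMap O N) s p)
    (hM : ∀ g ∈ M, ∃ m, IsUnit (MvPolynomial.coeff m g))
    (hN : ∀ D : Derivation ℤ N N, (∀ x : O', ∃ y : O', D (i' x) = i' y) →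
      ∀ b : N, i'.IsIntegralElem b → i'.IsIntegralElem (D b))
    (D : Derivation ℤ E E) (hD : ∀ x : O, ∃ y : O, D (algebraMap O E x) = algebraMap O E y)
    (b : E) (hb : IsIntegral O b) : IsIntegral O (D b) := by
  have hcE : CharZero E := charZero_of_injective_algebraMap (algebraMap K E).injective
  have hsE : AlgebraicIndependent E s := hs.extendScalars E
  -- extend the derivation to `N`
  obtain ⟨D0, hD0C, hD0X⟩ := exists_coeff_derivation E r D
  let _ : Algebra (MvPolynomial (Fin r) E) N := (MvPolynomial.aeval s).toRingHom.toAlgebra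
  have hPN : ∀ p, algebraMap (MvPolynomial (Fin r) E) N p = MvPolynomial.aeval s p := fun p => rfl
  have hinjP : Function.Injective (algebraMap (MvPolynomial (Fin r) E) N) := hsE
  have hnzd : FaithfulSMul (MvPolynomial (Fin r) E) N :=
    (faithfulSMul_iff_algebraMap_injective _ _).2 hinjP
  let F := FractionRing (MvPolynomial (Fin r) E)
  let _ : Algebra F N := FractionRing.liftAlgebra (MvPolynomial (Fin r) E) N
  have htF : IsScalarTower (MvPolynomial (Fin r) E) F N :=
    FractionRing.isScalarTower_liftAlgebra (MvPolynomial (Fin r) E) N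
  have hcF : CharZero F := charZero_of_injective_algebraMap (R := MvPolynomial (Fin r) E)
    (IsFractionRing.injective (MvPolynomial (Fin r) E) F)
  have halgF : Algebra.IsAlgebraic F N := by
    refine ⟨fun n => ?_⟩
    obtain ⟨p, hp0, hp⟩ := halg n
    -- lift the coefficients to polynomials over `E`
    let u : MvPolynomial (Fin r) K →+* F :=
      (algebraMap (MvPolynomial (Fin r) E) F).comp (MvPolynomial.map (algebraMap K E))
    have hu : (algebraMap F N).comp u = (MvPolynomial.aeval (R := K) s).toRingHom := by
      refine RingHom.ext fun q => ?_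
      change algebraMap F N (algebraMap (MvPolynomial (Fin r) E) F (MvPolynomial.map
        (algebraMap K E) q)) = MvPolynomial.aeval s q
      rw [← IsScalarTower.algebraMap_apply, hPN, MvPolynomial.aeval_map_algebraMap]
    have huinj : Function.Injective u :=
      (IsFractionRing.injective (MvPolynomial (Fin r) E) F).comp
        (MvPolynomial.map_injective _ (algebraMap K E).injective)
    refine ⟨p.map u, (Polynomial.map_ne_zero_iff huinj).2 hp0, ?_⟩
    rw [Polynomial.aeval_def, Polynomial.eval₂_map, hu]
    exact hp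
  have hfe : Algebra.FormallyEtale (MvPolynomial (Fin r) E) N := by
    have h1 : Algebra.FormallyEtale (MvPolynomial (Fin r) E) F :=
      Algebra.FormallyEtale.of_isLocalization (nonZeroDivisors _)
    have h2 : Algebra.FormallyEtale F N := Algebra.FormallyEtale.of_isSeparable F N
    exact Algebra.FormallyEtale.comp (MvPolynomial (Fin r) E) F N
  obtain ⟨D1, hD1⟩ := exists_derivation_of_formallyEtale (MvPolynomial (Fin r) E) N D0
  have hD1E : ∀ e : E, D1 (algebraMap E N e) = algebraMap E N (D e) := by
    intro e
    have h1 := (hD1 (MvPolynomial.C e)).trans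
      (congrArg (algebraMap (MvPolynomial (Fin r) E) N) (hD0C e))
    rw [hPN, hPN, MvPolynomial.aeval_C, MvPolynomial.aeval_C] at h1
    exact h1
  have hD1s : ∀ i, D1 (s i) = 0 := by
    intro i
    have h1 := (hD1 (MvPolynomial.X i)).trans
      (congrArg (algebraMap (MvPolynomial (Fin r) E) N) (hD0X i))
    rw [hPN, MvPolynomial.aeval_X, map_zero] at h1
    exact h1
  -- it preserves `O'`
  choose δ0 hδ0 using hD
  let _ : Algebra O' N := i'.toAlgebra
  let _ : Algebra (MvPolynomial (Fin r) O) N :=
    (MvPolynomial.eval₂Hom (algebraMap O N) s).toAlgebra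
  have hON : ∀ p, algebraMap (MvPolynomial (Fin r) O) N p =
    MvPolynomial.eval₂ (algebraMap O N) s p := fun p => rfl
  have htO : IsScalarTower (MvPolynomial (Fin r) O) O' N :=
    IsScalarTower.of_algebraMap_eq fun p => (hi' p).symm
  have hpO : ∀ p : MvPolynomial (Fin r) O, ∃ q : MvPolynomial (Fin r) O,
      D1 (algebraMap _ N p) = algebraMap _ N q := by
    intro p
    induction p using MvPolynomial.induction_on with
    | C a =>
      refine ⟨MvPolynomial.C (δ0 a), ?_⟩
      rw [hON, hON, MvPolynomial.eval₂_C, MvPolynomial.eval₂_C,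
        IsScalarTower.algebraMap_apply O E N, hD1E, hδ0, ← IsScalarTower.algebraMap_apply]
    | add p q hp hq =>
      obtain ⟨p', hp'⟩ := hp
      obtain ⟨q', hq'⟩ := hq
      exact ⟨p' + q', by rw [map_add, map_add, map_add, hp', hq']⟩
    | mul_X p i hp =>
      obtain ⟨p', hp'⟩ := hp
      refine ⟨p' * MvPolynomial.X i, ?_⟩
      have hX : algebraMap (MvPolynomial (Fin r) O) N (MvPolynomial.X i) = s i := by
        rw [hON, MvPolynomial.eval₂_X]
      have h1 : algebraMap (MvPolynomial (Fin r) O) N (p * MvPolynomial.X i) =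
          algebraMap (MvPolynomial (Fin r) O) N p * s i := by rw [map_mul, hX]
      have h2 : algebraMap (MvPolynomial (Fin r) O) N (p' * MvPolynomial.X i) =
          algebraMap (MvPolynomial (Fin r) O) N p' * s i := by rw [map_mul, hX]
      rw [h1, h2, Derivation.leibniz, hp', hD1s, smul_zero, zero_add, smul_eq_mul, mul_comm]
  have hpres : ∀ x : O', ∃ y : O', D1 (i' x) = i' y := by
    intro x
    exact derivation_localization (A := MvPolynomial (Fin r) O) (O := O') M D1 hpO x
  -- descent
  have hOO' : ∀ x : O, i' (algebraMap (MvPolynomial (Fin r) O) O' (MvPolynomial.C x)) =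
      algebraMap O N x := by
    intro x
    rw [hi', MvPolynomial.eval₂_C]
  have hintN : i'.IsIntegralElem (algebraMap E N b) := by
    obtain ⟨p, hpm, hp⟩ := hb
    refine ⟨p.map ((algebraMap (MvPolynomial (Fin r) O) O').comp MvPolynomial.C), hpm.map _, ?_⟩
    rw [Polynomial.eval₂_map]
    have h1 : i'.comp ((algebraMap (MvPolynomial (Fin r) O) O').comp MvPolynomial.C) =
        (algebraMap E N).comp (algebraMap O E) := by
      ext x
      exact (hOO' x).trans (IsScalarTower.algebraMap_apply O E N x)
    rw [h1, ← Polynomial.hom_eval₂, hp, map_zero]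
  have h2 := hN D1 hpres _ hintN
  rw [hD1E] at h2
  -- clear the denominators
  set c : E := D b with hc
  have hcN : IsIntegral O' (algebraMap E N c) := h2
  obtain ⟨⟨g, hg⟩, hgc⟩ := IsIntegral.exists_multiple_integral_of_isLocalization
    (R := MvPolynomial (Fin r) O) (Rₘ := O') M _ hcN
  let _ : Algebra (MvPolynomial (Fin r) O) (MvPolynomial (Fin r) E) :=
    (MvPolynomial.map (algebraMap O E)).toAlgebra
  have htow : IsScalarTower (MvPolynomial (Fin r) O) (MvPolynomial (Fin r) E) N :=
    IsScalarTower.of_algebraMap_eq fun p => by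
      change MvPolynomial.eval₂ (algebraMap O N) s p =
        MvPolynomial.aeval s (MvPolynomial.map (algebraMap O E) p)
      rw [MvPolynomial.aeval_def, MvPolynomial.eval₂_map, ← IsScalarTower.algebraMap_eq]
  have h3 : IsIntegral (MvPolynomial (Fin r) O)
      (MvPolynomial.map (algebraMap O E) g * MvPolynomial.C c) := by
    rw [← isIntegral_algebraMap_iff (B := N) hinjP]
    have h4 : algebraMap (MvPolynomial (Fin r) E) N (MvPolynomial.map (algebraMap O E) g *
        MvPolynomial.C c) = (⟨g, hg⟩ : M) • algebraMap E N c := by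
      rw [map_mul, Submonoid.smul_def, Algebra.smul_def]
      congr 1
      · exact (IsScalarTower.algebraMap_apply (MvPolynomial (Fin r) O) (MvPolynomial (Fin r) E) N
          g).symm
      · rw [hPN, MvPolynomial.aeval_C]
    rw [h4]
    exact hgc
  obtain ⟨m, u, hu⟩ := hM g hg
  have h5 := MvPolynomial.isIntegral_iff_isIntegral_coeff.1 h3 m
  rw [mul_comm, MvPolynomial.coeff_C_mul, MvPolynomial.coeff_map, ← hu, mul_comm] at h5
  have h6 : c = algebraMap O E (u⁻¹ : Oˣ) * (algebraMap O E u * c) := by
    rw [← mul_assoc, ← map_mul, Units.inv_mul, map_one, one_mul]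
  rw [h6]
  exact isIntegral_algebraMap.mul h5

end Pool.Agent.LibZ96
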