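import Pool.Agent.LibZ96.G1
import Pool.Agent.LibZ96.G2

/-!
THEOREM Z for the weak Hilbert property. The Gauss trick in the language of fields.
-/

set_option autoImplicit false

namespace Pool.Agent.LibZ96

open Pool.Agent.LibHP

theorem gaussHom_injective {O L : Type} [CommRing O] [IsDomain O] [IsLocalRing O] [Field L] {r : ℕ}
    (i : O →+* L) (s : Fin r → L) (hs : Function.Injective (MvPolynomial.eval₂Hom i s)) :
    Function.Injective (gaussHom i s hs) := by
  rw [gaussHom, IsLocalization.lift_injective_iff]
  intro x y
  constructor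
  · intro h
    rw [IsLocalization.injective (GaussRing O r) (gaussIdeal O r).primeCompl_le_nonZeroDivisors h]
  · intro h
    rw [hs h]

/-- Elements are algebraic over the polynomials in a transcendence basis. -/
theorem exists_poly_of_basis (K L : Type) [Field K] [Field L] [Algebra K L] {r : ℕ}
    (s : Fin r → L) (hs : IsTranscendenceBasis K s) (l : L) :
    ∃ p : Polynomial (MvPolynomial (Fin r) K), p ≠ 0 ∧
      p.eval₂ (MvPolynomial.aeval (R := K) s).toRingHom l = 0 := by
  have halg := hs.isAlgebraic
  obtain ⟨p, hp0, hp⟩ := halg.isAlgebraic l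
  let w : Algebra.adjoin K (Set.range s) →+* MvPolynomial (Fin r) K :=
    (hs.1.aevalEquiv.symm : _ →ₐ[K] _).toRingHom
  have hw : (MvPolynomial.aeval (R := K) s).toRingHom.comp w =
      (Algebra.adjoin K (Set.range s)).val.toRingHom := by
    refine RingHom.ext fun x => ?_
    obtain ⟨q, rfl⟩ := hs.1.aevalEquiv.surjective x
    change MvPolynomial.aeval s (hs.1.aevalEquiv.symm (hs.1.aevalEquiv q)) = _
    rw [AlgEquiv.symm_apply_apply]
    exact (hs.1.algebraMap_aevalEquiv q).symm
  have hwinj : Function.Injective w := (hs.1.aevalEquiv.symm).injective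
  refine ⟨p.map w, (Polynomial.map_ne_zero_iff hwinj).2 hp0, ?_⟩
  rw [Polynomial.eval₂_map, hw]
  exact hp

/-- `L` is finite over the fraction field of the Gauss ring. -/
theorem finite_of_basis (k O K L G K' : Type) [Field k] [CommRing O] [IsDomain O] [Field K]
    [Algebra O K] [IsFractionRing O K] [Field L] [Algebra K L] [Algebra O L] [IsScalarTower O K L]
    [Algebra k K] [Algebra k L] [IsScalarTower k K L] [Algebra.EssFiniteType k L] {r : ℕ}
    (s : Fin r → L) (hs : IsTranscendenceBasis K s) [CommRing G]
    (i : MvPolynomial (Fin r) O →+* G) [Field K'] [Algebra G K'] [Algebra G L] [Algebra K' L]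
    [IsScalarTower G K' L]
    (hi : ∀ p, algebraMap G L (i p) = MvPolynomial.eval₂ (algebraMap O L) s p) :
    FiniteDimensional K' L := by
  let κ0 : O →+* K' := (algebraMap G K').comp (i.comp MvPolynomial.C)
  have hκ0L : ∀ a, algebraMap K' L (κ0 a) = algebraMap O L a := by
    intro a
    change algebraMap K' L (algebraMap G K' (i (MvPolynomial.C a))) = _
    rw [← IsScalarTower.algebraMap_apply, hi, MvPolynomial.eval₂_C]
  have hOL : Function.Injective (algebraMap O L) := by
    rw [IsScalarTower.algebraMap_eq O K L]
    exact (algebraMap K L).injective.comp (IsFractionRing.injective O K)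
  have hκ0inj : Function.Injective κ0 := by
    intro a b hab
    apply hOL
    rw [← hκ0L, ← hκ0L, hab]
  let κ : K →+* K' := IsFractionRing.lift hκ0inj
  have hκ : (algebraMap K' L).comp κ = algebraMap K L := by
    refine IsFractionRing.ringHom_ext (A := O) ?_
    intro a
    change algebraMap K' L (IsFractionRing.lift hκ0inj _) = _
    rw [IsFractionRing.lift_algebraMap, hκ0L, IsScalarTower.algebraMap_apply O K L]
  let u : MvPolynomial (Fin r) K →+* K' :=
    MvPolynomial.eval₂Hom κ fun a => algebraMap G K' (i (MvPolynomial.X a))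
  have hu : (algebraMap K' L).comp u = (MvPolynomial.aeval (R := K) s).toRingHom := by
    refine MvPolynomial.ringHom_ext ?_ ?_
    · intro a
      change algebraMap K' L (MvPolynomial.eval₂Hom κ _ (MvPolynomial.C a)) =
        MvPolynomial.aeval s (MvPolynomial.C a)
      rw [MvPolynomial.eval₂Hom_C, MvPolynomial.aeval_C]
      exact congrArg (fun q : K →+* L => q a) hκ
    · intro a
      change algebraMap K' L (MvPolynomial.eval₂Hom κ _ (MvPolynomial.X a)) =
        MvPolynomial.aeval s (MvPolynomial.X a)
      rw [MvPolynomial.eval₂Hom_X', MvPolynomial.aeval_X, ← IsScalarTower.algebraMap_apply, hi,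
        MvPolynomial.eval₂_X]
  have huinj : Function.Injective u := by
    have h1 : Function.Injective ((algebraMap K' L).comp u) := by
      rw [hu]
      exact hs.1
    exact Function.Injective.of_comp (f := algebraMap K' L) h1
  have halgL : Algebra.IsAlgebraic K' L := by
    refine ⟨fun l => ?_⟩
    obtain ⟨p, hp0, hp⟩ := exists_poly_of_basis K L s hs l
    refine ⟨p.map u, (Polynomial.map_ne_zero_iff huinj).2 hp0, ?_⟩
    rw [Polynomial.aeval_def, Polynomial.eval₂_map, hu]
    exact hp
  let _ : Algebra k K' := (κ.comp (algebraMap k K)).toAlgebra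
  have htk : IsScalarTower k K' L := IsScalarTower.of_algebraMap_eq fun c => by
    have h1 := congrArg (fun q : K →+* L => q (algebraMap k K c)) hκ
    exact (IsScalarTower.algebraMap_apply k K L c).trans h1.symm
  have hess : Algebra.EssFiniteType K' L := Algebra.EssFiniteType.of_comp k K' L
  exact Algebra.finite_of_essFiniteType_of_isAlgebraic

/-- Algebraicity in a finite extension. -/
theorem exists_poly_of_finite (K L N : Type) [Field K] [Field L] [Algebra K L] {r : ℕ}
    (s : Fin r → L) (hs : IsTranscendenceBasis K s) [Field N] [Algebra L N] [Algebra K N]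
    [IsScalarTower K L N] [FiniteDimensional L N] (n : N) :
    ∃ p : Polynomial (MvPolynomial (Fin r) K), p ≠ 0 ∧
      p.eval₂ (MvPolynomial.aeval (R := K) fun a => algebraMap L N (s a)).toRingHom n = 0 := by
  have hb : IsTranscendenceBasis K fun a => algebraMap L N (s a) := hs.algebraMap_comp
  exact exists_poly_of_basis K N _ hb n

/-- The Gauss trick. -/
theorem isIntegral_derivation_of_gauss (k O K L N E G K' : Type) [Field k] [CharZero k]
    [CommRing O] [IsDomain O] [Field K]
    [Algebra O K] [IsFractionRing O K] [Field L] [Algebra K L] [Algebra O L] [IsScalarTower O K L]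
    [Algebra k K] [Algebra k L] [IsScalarTower k K L] [Algebra.EssFiniteType k L] {r : ℕ}
    (s : Fin r → L) (hs : IsTranscendenceBasis K s) [CommRing G] [IsDomain G]
    [IsDiscreteValuationRing G] [Algebra (MvPolynomial (Fin r) O) G]
    (M : Submonoid (MvPolynomial (Fin r) O)) [IsLocalization M G] [Field K'] [Algebra G K']
    [IsFractionRing G K'] [Algebra G L] [Algebra K' L] [IsScalarTower G K' L]
    (hi : ∀ p : MvPolynomial (Fin r) O, algebraMap G L (algebraMap _ G p) =
      MvPolynomial.eval₂ (algebraMap O L) s p)
    (hM : ∀ g ∈ M, ∃ m, IsUnit (MvPolynomial.coeff m g)) [Field N] [Algebra L N]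
    [FiniteDimensional L N] [Algebra K N] [IsScalarTower K L N] [Algebra O N]
    [IsScalarTower O L N] [Field E] [Algebra K E] [Algebra O E] [IsScalarTower O K E]
    [FiniteDimensional K E] [Algebra E N] [IsScalarTower K E N] [IsScalarTower O E N]
    (h : ∀ D : Derivation ℤ L L, (∀ x : G, ∃ y : G, D (algebraMap G L x) = algebraMap G L y) →
      ∀ b : L, IsIntegral G b → IsIntegral G (D b))
    (hV : ∀ V : ValuationSubring L, (∀ x : O, algebraMap O L x ∈ V) →
      ∃ (R : Type) (_ : CommRing R) (_ : IsDomain R) (_ : Algebra R L) (_ : IsFractionRing R L),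
        (∀ r : R, algebraMap R L r ∈ V) ∧ FinEt ((algebraMap L N).comp (algebraMap R L)))
    (D : Derivation ℤ E E) (hD : ∀ x : O, ∃ y : O, D (algebraMap O E x) = algebraMap O E y)
    (b : E) (hb : IsIntegral O b) : IsIntegral O (D b) := by
  have hfin : FiniteDimensional K' L :=
    finite_of_basis k O K L G K' s hs (algebraMap (MvPolynomial (Fin r) O) G) hi
  have hcL : CharZero L := charZero_of_injective_algebraMap (algebraMap k L).injective
  have hcK : CharZero K := charZero_of_injective_algebraMap (algebraMap k K).injective
  have hcK' : CharZero K' := (algebraMap K' L).charZero_iff (algebraMap K' L).injective |>.2 hcL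
  let _ : Algebra G N := ((algebraMap L N).comp (algebraMap G L)).toAlgebra
  have htN : IsScalarTower G L N := IsScalarTower.of_algebraMap_eq fun a => rfl
  have hN := isIntegral_derivation_of_tower G K' L N h (fun V hVG => hV V fun x => by
    have h1 := hVG (algebraMap (MvPolynomial (Fin r) O) G (MvPolynomial.C x))
    rw [hi, MvPolynomial.eval₂_C] at h1
    exact h1)
  have hsN : AlgebraicIndependent K fun a => algebraMap L N (s a) :=
    hs.1.map' (f := IsScalarTower.toAlgHom K L N) (algebraMap L N).injective
  exact pres_of_gauss O K E N r _ hsN (exists_poly_of_finite K L N s hs) G M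
    ((algebraMap L N).comp (algebraMap G L)) (by
      intro p
      change algebraMap L N (algebraMap G L (algebraMap _ _ p)) = _
      rw [hi, IsScalarTower.algebraMap_eq O L N]
      exact MvPolynomial.eval₂_comp_left (algebraMap L N) (algebraMap O L) s p)
    hM hN D hD b hb

end Pool.Agent.LibZ96
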