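import Pool.Agent.LibZ96.G4b

/-!
THEOREM Z for the weak Hilbert property. The Gauss trick with the Gauss valuation ring.
-/

set_option autoImplicit false

namespace Pool.Agent.LibZ96

open Pool.Agent.LibHP

/-- The Gauss trick. -/
theorem isIntegral_derivation_of_presHom (k O K L N E G : Type) [Field k] [CharZero k]
    [CommRing O] [IsDomain O] [Field K]
    [Algebra O K] [IsFractionRing O K] [Field L] [Algebra K L] [Algebra O L] [IsScalarTower O K L]
    [Algebra k K] [Algebra k L] [IsScalarTower k K L] [Algebra.EssFiniteType k L] {r : ℕ}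
    (s : Fin r → L) (hs : IsTranscendenceBasis K s) [CommRing G] [IsDomain G]
    [IsDiscreteValuationRing G] [Algebra (MvPolynomial (Fin r) O) G]
    (M : Submonoid (MvPolynomial (Fin r) O)) [IsLocalization M G] (i : G →+* L)
    (hiinj : Function.Injective i)
    (hi : ∀ p : MvPolynomial (Fin r) O, i (algebraMap _ G p) =
      MvPolynomial.eval₂ (algebraMap O L) s p)
    (hM : ∀ g ∈ M, ∃ m, IsUnit (MvPolynomial.coeff m g)) (h : Pres i) [Field N] [Algebra L N]
    [FiniteDimensional L N] [Algebra K N] [IsScalarTower K L N] [Algebra O N]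
    [IsScalarTower O L N] [Field E] [Algebra K E] [Algebra O E] [IsScalarTower O K E]
    [FiniteDimensional K E] [Algebra E N] [IsScalarTower K E N] [IsScalarTower O E N]
    (hV : ∀ V : ValuationSubring L, (∀ x : O, algebraMap O L x ∈ V) →
      ∃ (R : Type) (_ : CommRing R) (_ : IsDomain R) (_ : Algebra R L) (_ : IsFractionRing R L),
        (∀ r : R, algebraMap R L r ∈ V) ∧ FinEt ((algebraMap L N).comp (algebraMap R L)))
    (D : Derivation ℤ E E) (hD : ∀ x : O, ∃ y : O, D (algebraMap O E x) = algebraMap O E y)
    (b : E) (hb : IsIntegral O b) : IsIntegral O (D b) := by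
  let _ : Algebra G L := i.toAlgebra
  have hfaith : FaithfulSMul G L :=
    (faithfulSMul_iff_algebraMap_injective _ _).2 hiinj
  let _ : Algebra (FractionRing G) L := FractionRing.liftAlgebra G L
  have htK' : IsScalarTower G (FractionRing G) L :=
    FractionRing.isScalarTower_liftAlgebra G L
  exact isIntegral_derivation_of_gauss k O K L N E G (FractionRing G) s hs M hi hM
    h hV D hD b hb

/-- The Gauss trick. -/
theorem isIntegral_derivation_of_presGauss (k O K L N E : Type) [Field k] [CharZero k]
    [CommRing O] [IsDomain O] [IsDiscreteValuationRing O] [Field K]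
    [Algebra O K] [IsFractionRing O K] [Field L] [Algebra K L] [Algebra O L] [IsScalarTower O K L]
    [Algebra k K] [Algebra k L] [IsScalarTower k K L] [Algebra.EssFiniteType k L] {r : ℕ}
    (s : Fin r → L) (hs : IsTranscendenceBasis K s)
    (hinj : Function.Injective (MvPolynomial.eval₂Hom (algebraMap O L) s))
    (h : Pres (gaussHom (algebraMap O L) s hinj)) [Field N] [Algebra L N]
    [FiniteDimensional L N] [Algebra K N] [IsScalarTower K L N] [Algebra O N]
    [IsScalarTower O L N] [Field E] [Algebra K E] [Algebra O E] [IsScalarTower O K E]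
    [FiniteDimensional K E] [Algebra E N] [IsScalarTower K E N] [IsScalarTower O E N]
    (hV : ∀ V : ValuationSubring L, (∀ x : O, algebraMap O L x ∈ V) →
      ∃ (R : Type) (_ : CommRing R) (_ : IsDomain R) (_ : Algebra R L) (_ : IsFractionRing R L),
        (∀ r : R, algebraMap R L r ∈ V) ∧ FinEt ((algebraMap L N).comp (algebraMap R L)))
    (D : Derivation ℤ E E) (hD : ∀ x : O, ∃ y : O, D (algebraMap O E x) = algebraMap O E y)
    (b : E) (hb : IsIntegral O b) : IsIntegral O (D b) :=
  isIntegral_derivation_of_presHom k O K L N E (GaussRing O r) s hs (gaussIdeal O r).primeCompl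
    (gaussHom (algebraMap O L) s hinj) (gaussHom_injective _ _ _)
    (gaussHom_algebraMap (algebraMap O L) s hinj) (exists_isUnit_coeff O r) h hV D hD b hb

end Pool.Agent.LibZ96
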