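import Pool.Agent.LibHP.E2a
import Pool.Agent.LibHP.E3

/-!
THEOREM Z for the weak Hilbert property. Base change of a finite etale integral closure to a
valuation ring.
-/

set_option autoImplicit false
open TensorProduct

namespace Pool.Agent.LibZ96

/-- A domain etale over an integrally closed domain is integrally closed. -/
theorem isIntegrallyClosed_of_etale (R : Type) [CommRing R] [IsDomain R] [IsIntegrallyClosed R]
    (A : Type) [CommRing A] [IsDomain A] [Algebra R A] [Algebra.Etale R A] :
    IsIntegrallyClosed A := by
  classical
  let F := FractionRing R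
  let B := A ⊗[R] F
  have hflat : Module.Flat R A := inferInstance
  have hinj : Function.Injective (algebraMap R A) := by
    rw [injective_iff_map_eq_zero]
    intro r hr
    by_contra hr0
    have hreg : IsSMulRegular A r := Module.Flat.isSMulRegular_of_nonZeroDivisors
      (mem_nonZeroDivisors_of_ne_zero hr0)
    have h1 : r • (1 : A) = r • (0 : A) := by
      rw [smul_zero, Algebra.smul_def, hr, zero_mul]
    exact one_ne_zero (hreg h1)
  have hle : Algebra.algebraMapSubmonoid A (nonZeroDivisors R) ≤ nonZeroDivisors A := by
    rintro _ ⟨r, hr, rfl⟩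
    apply mem_nonZeroDivisors_of_ne_zero
    intro h0
    have hr0 : r ≠ 0 := nonZeroDivisors.ne_zero hr
    exact hr0 (hinj (by rw [map_zero]; exact h0))
  have hloc : IsLocalization (Algebra.algebraMapSubmonoid A (nonZeroDivisors R)) B :=
    IsLocalization.tensor F (nonZeroDivisors R)
  have hBdom : IsDomain B := IsLocalization.isDomain_of_le_nonZeroDivisors B hle
  have hBfield : IsField B := by
    let e : F ⊗[R] A ≃+* B := (Algebra.TensorProduct.comm R F A).toRingEquiv
    have hdom' : IsDomain (F ⊗[R] A) := e.toMulEquiv.isDomain _
    have hfin : Module.Finite F (F ⊗[R] A) := Algebra.FormallyUnramified.finite_of_free F (F ⊗[R] A)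
    have hintg : Algebra.IsIntegral F (F ⊗[R] A) := inferInstance
    have hf : IsField (F ⊗[R] A) :=
      isField_of_isIntegral_of_isField' (Field.toIsField F)
    exact e.symm.toMulEquiv.isField hf
  let _ : Field B := hBfield.toField
  have hfrac : IsFractionRing A B := by
    refine IsLocalization.of_le (Algebra.algebraMapSubmonoid A (nonZeroDivisors R)) _ hle ?_
    intro r hr
    rw [isUnit_iff_ne_zero]
    intro h0
    have := IsLocalization.injective B hle
    have h1 : r = 0 := this (by rw [h0, map_zero])
    exact nonZeroDivisors.ne_zero hr h1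
  rw [isIntegrallyClosed_iff B]
  intro x hx
  obtain ⟨t, ht⟩ := (TensorProduct.toIntegralClosure_bijective_of_smooth (R := R) (S := A)
    (B := F)).2 ⟨x, hx⟩
  have hbot : integralClosure R F = ⊥ := IsIntegrallyClosed.integralClosure_eq_bot R F
  have key : ∀ t : A ⊗[R] (integralClosure R F), ∃ y : A, algebraMap A B y =
      ((TensorProduct.toIntegralClosure R A F t : integralClosure A B) : B) := by
    intro t
    induction t with
    | zero => exact ⟨0, by simp⟩
    | add x y hx hy =>
      obtain ⟨a, ha⟩ := hx
      obtain ⟨b, hb⟩ := hy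
      exact ⟨a + b, by rw [map_add, ha, hb, map_add]; rfl⟩
    | tmul a c =>
      obtain ⟨c, hc⟩ := c
      rw [hbot] at hc
      obtain ⟨r, hr⟩ := Algebra.mem_bot.1 hc
      refine ⟨r • a, ?_⟩
      subst hr
      change (r • a) ⊗ₜ[R] (1 : F) = a ⊗ₜ[R] (algebraMap R F r)
      rw [TensorProduct.smul_tmul, Algebra.smul_def, mul_one]
  obtain ⟨y, hy⟩ := key t
  exact ⟨y, by rw [hy, ht]⟩

/-- If the integral closure `C` of `R` in `N` is etale over `R`, then the integral closure of an
integrally closed domain `V` between `R` and `L = Frac R` is etale over `V`. -/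
theorem etale_integralClosure_of_etale (R V L N : Type) [CommRing R] [IsDomain R] [CommRing V]
    [IsDomain V] [IsIntegrallyClosed V] [Field L] [Field N] [Algebra R V] [Algebra R L]
    [Algebra V L] [IsScalarTower R V L] [IsFractionRing R L] [IsFractionRing V L] [Algebra L N]
    [Algebra R N] [IsScalarTower R L N] [Algebra V N] [IsScalarTower V L N]
    [Algebra.IsAlgebraic L N]
    (h : Algebra.Etale R (integralClosure R N)) : Algebra.Etale V (integralClosure V N) := by
  have htow : IsScalarTower R V N := IsScalarTower.of_algebraMap_eq fun r => by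
    rw [IsScalarTower.algebraMap_apply R L N, IsScalarTower.algebraMap_apply R V L,
      ← IsScalarTower.algebraMap_apply V L N]
  let C := integralClosure R N
  let S := V ⊗[R] C
  let g : S →ₐ[V] N := Algebra.TensorProduct.lift (Algebra.ofId V N) C.val
    (fun _ _ => Commute.all _ _)
  have hg : ∀ v c, g (v ⊗ₜ c) = algebraMap V N v * (c : N) := fun v c =>
    Algebra.TensorProduct.lift_tmul _ _ _ v c
  -- injectivity
  have hflat : Module.Flat R C := inferInstance
  have hginj : Function.Injective g := by
    let G : L ⊗[R] C →ₐ[L] N := Algebra.TensorProduct.lift (Algebra.ofId L N) C.val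
      (fun _ _ => Commute.all _ _)
    have hG : ∀ v c, G (v ⊗ₜ c) = algebraMap L N v * (c : N) := fun v c =>
      Algebra.TensorProduct.lift_tmul _ _ _ v c
    have hVL : Function.Injective (Algebra.TensorProduct.map (IsScalarTower.toAlgHom R V L)
        (AlgHom.id R C)) := by
      have h1 := Module.Flat.rTensor_preserves_injective_linearMap (M := C)
        (IsScalarTower.toAlgHom R V L).toLinearMap (IsFractionRing.injective V L)
      exact h1
    have hGinj : Function.Injective G := by
      rw [injective_iff_map_eq_zero]
      intro t ht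
      -- clear denominators
      obtain ⟨⟨c, s⟩, hs⟩ : ∃ p : C × (nonZeroDivisors R),
          (algebraMap R L p.2) • t = (1 : L) ⊗ₜ[R] p.1 := by
        have hloc : IsLocalization (Algebra.algebraMapSubmonoid C (nonZeroDivisors R))
            (C ⊗[R] L) := IsLocalization.tensor L (nonZeroDivisors R)
        obtain ⟨⟨c, s⟩, hcs⟩ := IsLocalization.surj
          (Algebra.algebraMapSubmonoid C (nonZeroDivisors R))
          (Algebra.TensorProduct.comm R L C t)
        obtain ⟨s, r, hr, rfl⟩ := s
        refine ⟨⟨c, ⟨r, hr⟩⟩, ?_⟩
        apply (Algebra.TensorProduct.comm R L C).injective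
        rw [Algebra.TensorProduct.comm_tmul]
        have h2 : Algebra.TensorProduct.comm R L C (algebraMap R L r • t) =
            algebraMap R (C ⊗[R] L) r * Algebra.TensorProduct.comm R L C t := by
          rw [algebraMap_smul, map_smul, Algebra.smul_def]
        rw [h2, mul_comm]
        refine Eq.trans ?_ hcs
        rfl
      have h3 : G ((algebraMap R L s) • t) = 0 := by rw [map_smul, ht, smul_zero]
      rw [hs, hG, map_one, one_mul] at h3
      have h4 : c = 0 := Subtype.ext h3
      have h5 : algebraMap R L s ≠ 0 :=
        IsLocalization.to_map_ne_zero_of_mem_nonZeroDivisors _ le_rfl s.2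
      rw [h4, TensorProduct.tmul_zero] at hs
      exact (smul_eq_zero.1 hs).resolve_left h5
    have hcomp : ∀ t, g t = G (Algebra.TensorProduct.map (IsScalarTower.toAlgHom R V L)
        (AlgHom.id R C) t) := by
      intro t
      refine TensorProduct.induction_on t ?_ ?_ ?_
      · rw [map_zero, map_zero, map_zero]
      · intro v c
        rw [hg, Algebra.TensorProduct.map_tmul, hG, IsScalarTower.algebraMap_apply V L N]
        rfl
      · intro x y hx hy
        rw [map_add, map_add, map_add, hx, hy]
    intro a b hab
    exact hVL (hGinj (by rw [← hcomp, ← hcomp, hab]))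
  have hSdom : IsDomain S := hginj.isDomain g.toRingHom
  have hSet : Algebra.Etale V S := inferInstance
  have hSic : IsIntegrallyClosed S := isIntegrallyClosed_of_etale V S
  -- `N` is the field of fractions of `S`
  let _ : Algebra S N := g.toRingHom.toAlgebra
  have hSN : ∀ s, algebraMap S N s = g s := fun s => rfl
  have htS : IsScalarTower V S N := IsScalarTower.of_algebraMap_eq fun v => (g.commutes v).symm
  have hfaith : FaithfulSMul S N := (faithfulSMul_iff_algebraMap_injective S N).2 hginj
  have hfr : IsFractionRing S N := by
    refine IsFractionRing.of_field S N fun n => ?_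
    have halg : IsAlgebraic R n := by
      have h1 : IsAlgebraic L n := Algebra.IsAlgebraic.isAlgebraic n
      exact (IsFractionRing.isAlgebraic_iff R L N).2 h1
    obtain ⟨r, hr0, hr⟩ := halg.exists_integral_multiple
    refine ⟨(1 : V) ⊗ₜ (⟨r • n, hr⟩ : C), (algebraMap R V r) ⊗ₜ (1 : C), ?_⟩
    rw [hSN, hSN, hg, hg, map_one, one_mul, OneMemClass.coe_one, mul_one,
      ← IsScalarTower.algebraMap_apply R V N]
    have h2 : algebraMap R N r ≠ 0 := by
      rw [IsScalarTower.algebraMap_apply R L N]
      intro h0
      rw [map_eq_zero] at h0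
      exact hr0 ((map_eq_zero_iff _ (IsFractionRing.injective R L)).1 h0)
    rw [eq_div_iff h2]
    change n * algebraMap R N r = r • n
    rw [Algebra.smul_def, mul_comm]
  have hSint : Algebra.IsIntegral V S := by
    have h1 : Algebra.IsIntegral R C := inferInstance
    exact Algebra.IsIntegral.tensorProduct R V C
  let e : S ≃ₐ[V] integralClosure V N := by
    let q : S →ₐ[V] integralClosure V N := g.codRestrict (integralClosure V N) (fun s =>
      (Algebra.IsIntegral.isIntegral (R := V) s).map g)
    refine AlgEquiv.ofBijective q ⟨fun a b hab => hginj (congrArg Subtype.val hab), ?_⟩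
    rintro ⟨n, hn⟩
    have h1 : IsIntegral S n := hn.tower_top
    obtain ⟨s, hs⟩ := IsIntegrallyClosed.isIntegral_iff.1 h1
    exact ⟨s, Subtype.ext hs⟩
  exact Algebra.Etale.of_equiv e

end Pool.Agent.LibZ96
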