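import Pool.Agent.LibZ96.W3a
import Pool.Agent.LibHP.SDefs

/-!
THEOREM Z for the weak Hilbert property. A tower `O < L < N`: if `L` is unramified over the discrete
valuation ring `O` and `N` is etale over a model of `L` which is proper, then `N` is unramified
over `O`.
-/

set_option autoImplicit false

namespace Pool.Agent.LibZ96

open Pool.Agent.LibHP

/-- The elements of a valuation ring containing a Dedekind domain with the same field of fractions
are fractions with denominators which are units of the valuation ring. -/
theorem exists_frac (B L : Type) [CommRing B] [IsDedekindDomain B] [Field L] [Algebra B L]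
    [IsFractionRing B L] (V : ValuationSubring L) (hB : ∀ b : B, algebraMap B L b ∈ V) (x : L)
    (hx : x ∈ V) :
    ∃ a s : B, algebraMap B L s ≠ 0 ∧ (algebraMap B L s)⁻¹ ∈ V ∧
      algebraMap B L s * x = algebraMap B L a := by
  classical
  let β : B →+* V := (algebraMap B L).codRestrict V.toSubring hB
  let P : Ideal B := (IsLocalRing.maximalIdeal V).comap β
  have hP : P.IsPrime := inferInstance
  have hunit : ∀ t : B, t ∉ P → algebraMap B L t ≠ 0 ∧ (algebraMap B L t)⁻¹ ∈ V := by
    intro t ht
    have h1 : IsUnit (β t) := by
      by_contra h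
      exact ht (Ideal.mem_comap.2 ((IsLocalRing.mem_maximalIdeal _).2 h))
    obtain ⟨u, hu⟩ := h1.exists_right_inv
    have h2 : algebraMap B L t * (u : L) = 1 := congrArg Subtype.val hu
    refine ⟨left_ne_zero_of_mul_eq_one h2, ?_⟩
    rw [inv_eq_of_mul_eq_one_right h2]
    exact u.2
  obtain ⟨a0, s0, hs0, rfl⟩ := IsFractionRing.div_surjective (A := B) x
  have hs00 : s0 ≠ 0 := nonZeroDivisors.ne_zero hs0
  have hinjL : Function.Injective (algebraMap B L) := IsFractionRing.injective B L
  have hs0L : algebraMap B L s0 ≠ 0 := fun h => hs00 (hinjL (by rw [h, map_zero]))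
  by_cases hPb : P = ⊥
  · refine ⟨a0, s0, hs0L, (hunit s0 (by rw [hPb]; exact hs00)).2, ?_⟩
    rw [mul_div_cancel₀ _ hs0L]
  have hdvr := IsLocalization.AtPrime.isDiscreteValuationRing_of_dedekind_domain B hPb
    (Localization.AtPrime P)
  have hinj : Function.Injective (algebraMap B (Localization.AtPrime P)) :=
    IsLocalization.injective _ P.primeCompl_le_nonZeroDivisors
  rcases ValuationRing.dvd_total (algebraMap B (Localization.AtPrime P) s0)
    (algebraMap B (Localization.AtPrime P) a0) with ⟨w, hw⟩ | ⟨w, hw⟩
  · obtain ⟨c, t, rfl⟩ := IsLocalization.exists_mk'_eq P.primeCompl w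
    have h1 := IsLocalization.mk'_spec (Localization.AtPrime P) c t
    have h2 : a0 * t = s0 * c := by
      apply hinj
      rw [map_mul, map_mul, hw, mul_assoc, h1]
    have ht := hunit t t.2
    refine ⟨c, t, ht.1, ht.2, ?_⟩
    rw [mul_div_assoc', div_eq_iff hs0L, ← map_mul, ← map_mul, mul_comm (t : B) a0, h2, mul_comm]
  · obtain ⟨c, t, rfl⟩ := IsLocalization.exists_mk'_eq P.primeCompl w
    have h1 := IsLocalization.mk'_spec (Localization.AtPrime P) c t
    have h2 : s0 * t = a0 * c := by
      apply hinj
      rw [map_mul, map_mul, hw, mul_assoc, h1]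
    have ht := hunit t t.2
    have h3 : algebraMap B L c * (algebraMap B L a0 / algebraMap B L s0) = algebraMap B L t := by
      rw [mul_div_assoc', div_eq_iff hs0L, ← map_mul, ← map_mul, mul_comm c a0, ← h2, mul_comm]
    have hc0 : algebraMap B L c ≠ 0 := fun h => ht.1 (by rw [← h3, h, zero_mul])
    refine ⟨t, c, hc0, ?_, h3⟩
    have h4 : (algebraMap B L c)⁻¹ = (algebraMap B L a0 / algebraMap B L s0) *
        (algebraMap B L (t : B))⁻¹ := by
      rw [← h3]
      have h5 : algebraMap B L a0 / algebraMap B L s0 ≠ 0 := by
        intro h6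
        apply ht.1
        rw [← h3, h6, mul_zero]
      generalize algebraMap B L a0 / algebraMap B L s0 = y at h5
      field_simp
    rw [h4]
    exact V.mul_mem _ _ hx ht.2

/-- Two derivations which agree on `O` agree on a formally unramified extension. -/
theorem derivation_eq (O L N : Type) [CommRing O] [CommRing L] [CommRing N] [Algebra O L]
    [Algebra L N] [Algebra O N] [IsScalarTower O L N] [Algebra.FormallyUnramified O L]
    (D : Derivation ℤ N N) (D1 : Derivation ℤ L L)
    (h : ∀ x : O, D (algebraMap O N x) = algebraMap L N (D1 (algebraMap O L x))) (b : L) :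
    D (algebraMap L N b) = algebraMap L N (D1 b) := by
  let Δ : Derivation O L N := Derivation.mk'
    { toFun := fun b => D (algebraMap L N b) - algebraMap L N (D1 b)
      map_add' := by
        intro x y
        rw [map_add, map_add, map_add, map_add]
        ring
      map_smul' := by
        intro x b
        simp only [RingHom.id_apply]
        have h' : D (algebraMap L N (algebraMap O L x)) = algebraMap L N (D1 (algebraMap O L x)) := by
          rw [← IsScalarTower.algebraMap_apply O L N, h]
        rw [Algebra.smul_def x b, map_mul, Derivation.leibniz, Derivation.leibniz, h',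
          Algebra.smul_def x (D (algebraMap L N b) - algebraMap L N (D1 b)),
          IsScalarTower.algebraMap_apply O L N]
        simp only [smul_eq_mul, map_add, map_mul]
        ring } (by
      intro x y
      simp only [LinearMap.coe_mk, AddHom.coe_mk]
      rw [map_mul, Derivation.leibniz, Derivation.leibniz]
      simp only [smul_eq_mul, map_add, map_mul, Algebra.smul_def]
      ring)
  have hΔ : ∀ b, Δ b = 0 := by
    intro b
    have h1 := Δ.liftKaehlerDifferential_comp_D b
    have h2 : KaehlerDifferential.D O L b = 0 := Subsingleton.elim _ _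
    rw [h2, map_zero] at h1
    exact h1.symm
  exact sub_eq_zero.1 (hΔ b)

/-- The restriction of a derivation to a subring which it preserves. -/
theorem exists_derivation_restrict (O N : Type) [CommRing O] [CommRing N] [Algebra O N]
    (hinj : Function.Injective (algebraMap O N)) (D : Derivation ℤ N N)
    (hD : ∀ x : O, ∃ y : O, D (algebraMap O N x) = algebraMap O N y) :
    ∃ δ : Derivation ℤ O O, ∀ x, D (algebraMap O N x) = algebraMap O N (δ x) := by
  choose δ0 hδ0 using hD
  refine ⟨Derivation.mk'
    (AddMonoidHom.toIntLinearMap
      { toFun := δ0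
        map_zero' := hinj (by rw [← hδ0, map_zero, map_zero])
        map_add' := fun x y => hinj (by rw [← hδ0, map_add, map_add, map_add, hδ0, hδ0]) }) ?_,
    hδ0⟩
  intro x y
  apply hinj
  change algebraMap O N (δ0 (x * y)) = algebraMap O N (x * δ0 y + y * δ0 x)
  rw [← hδ0, map_mul, Derivation.leibniz, hδ0, hδ0]
  simp only [smul_eq_mul, map_add, map_mul]

/-- A derivation of `L` preserving a Dedekind domain preserves all valuation rings containing
it. -/
theorem mem_valuation_of_preserves (B L : Type) [CommRing B] [IsDedekindDomain B] [Field L]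
    [Algebra B L] [IsFractionRing B L] (V : ValuationSubring L)
    (hB : ∀ b : B, algebraMap B L b ∈ V) (D : Derivation ℤ L L)
    (hD : ∀ b : B, D (algebraMap B L b) ∈ V) (x : L) (hx : x ∈ V) : D x ∈ V := by
  obtain ⟨a, s, hs0, hs, h⟩ := exists_frac B L V hB x hx
  have h1 := congrArg D h
  rw [Derivation.leibniz, smul_eq_mul, smul_eq_mul] at h1
  have h2 : D x = (algebraMap B L s)⁻¹ * (D (algebraMap B L a) - x * D (algebraMap B L s)) := by
    rw [← h1]
    field_simp
    ring
  rw [h2]
  exact V.mul_mem _ _ hs (V.toSubring.sub_mem (hD a) (V.mul_mem _ _ hx (hD s)))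

/-- The tower statement. -/
theorem isIntegral_derivation_of_tower (O K L N : Type) [CommRing O] [IsDomain O]
    [IsDiscreteValuationRing O] [Field K] [CharZero K] [Algebra O K] [IsFractionRing O K] [Field L]
    [Algebra K L] [Algebra O L] [IsScalarTower O K L] [FiniteDimensional K L] [Field N]
    [Algebra L N] [Algebra O N] [IsScalarTower O L N] [FiniteDimensional L N]
    (hL : ∀ D : Derivation ℤ L L,
      (∀ x : O, ∃ y : O, D (algebraMap O L x) = algebraMap O L y) → ∀ b : L, IsIntegral O b →
        IsIntegral O (D b))
    (hV : ∀ V : ValuationSubring L, (∀ x : O, algebraMap O L x ∈ V) →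
      ∃ (R : Type) (_ : CommRing R) (_ : IsDomain R) (_ : Algebra R L) (_ : IsFractionRing R L),
        (∀ r : R, algebraMap R L r ∈ V) ∧ FinEt ((algebraMap L N).comp (algebraMap R L)))
    (D : Derivation ℤ N N) (hD : ∀ x : O, ∃ y : O, D (algebraMap O N x) = algebraMap O N y)
    (b : N) (hb : IsIntegral O b) : IsIntegral O (D b) := by
  have hcL : CharZero L := charZero_of_injective_algebraMap (algebraMap K L).injective
  have hinjL : Function.Injective (algebraMap O L) := by
    rw [IsScalarTower.algebraMap_eq O K L]
    exact (algebraMap K L).injective.comp (IsFractionRing.injective O K)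
  have hinjN : Function.Injective (algebraMap O N) := by
    rw [IsScalarTower.algebraMap_eq O L N]
    exact (algebraMap L N).injective.comp hinjL
  obtain ⟨δ, hδ⟩ := exists_derivation_restrict O N hinjN D hD
  obtain ⟨D1, hD1⟩ := exists_derivation_extends O K L δ
  have hunr : Algebra.FormallyUnramified O L := by
    have h1 : Algebra.FormallyEtale O K := Algebra.FormallyEtale.of_isLocalization
      (nonZeroDivisors O)
    have h2 : Algebra.FormallyEtale K L := Algebra.FormallyEtale.of_isSeparable K L
    have h3 : Algebra.FormallyEtale O L := Algebra.FormallyEtale.comp O K L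
    infer_instance
  have hDD : ∀ l : L, D (algebraMap L N l) = algebraMap L N (D1 l) :=
    derivation_eq O L N D D1 fun x => by
      rw [hD1, hδ, IsScalarTower.algebraMap_apply O L N]
  -- the integral closure of `O` in `L`
  have hded : IsDedekindDomain (integralClosure O L) := integralClosure.isDedekindDomain O K L
  have hfrac : IsFractionRing (integralClosure O L) L :=
    integralClosure.isFractionRing_of_finite_extension K L
  have hD1B : ∀ c : L, IsIntegral O c → IsIntegral O (D1 c) :=
    hL D1 fun x => ⟨δ x, hD1 x⟩
  by_contra hcon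
  -- a valuation ring
  have hex : ∃ V : ValuationSubring N, (∀ x : O, algebraMap O N x ∈ V) ∧ D b ∉ V := by
    by_contra hno
    push Not at hno
    have h1 : D b ∈ (⨅ V : {V : ValuationSubring N //
        (Set.range (algebraMap O N)) ⊆ V.toSubring}, V.1.toSubring) := by
      rw [Subring.mem_iInf]
      rintro ⟨V, hV⟩
      exact hno V fun x => hV ⟨x, rfl⟩
    rw [iInf_valuationSubring_superset] at h1
    apply hcon
    have h2 : Subring.closure (Set.range (algebraMap O N)) = (algebraMap O N).range := by
      rw [← RingHom.coe_range, Subring.closure_eq]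
    obtain ⟨q, hq, hq0⟩ : IsIntegral (Subring.closure (Set.range (algebraMap O N))) (D b) := h1
    have h3 : q.map (algebraMap _ N) ∈ Polynomial.lifts (algebraMap O N) := by
      rw [Polynomial.lifts_iff_coeff_lifts]
      intro n
      rw [Polynomial.coeff_map]
      have h4 : ((q.coeff n : Subring.closure (Set.range (algebraMap O N))) : N) ∈
          (algebraMap O N).range := by
        rw [← h2]
        exact (q.coeff n).2
      exact h4
    obtain ⟨p, hp, -, hpm⟩ := Polynomial.lifts_and_natDegree_eq_and_monic h3 (hq.map _)
    refine ⟨p, hpm, ?_⟩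
    rw [← Polynomial.eval_map, hp, Polynomial.eval_map]
    exact hq0
  obtain ⟨V, hVO, hVD⟩ := hex
  let W : ValuationSubring L := V.comap (algebraMap L N)
  have hWO : ∀ x : O, algebraMap O L x ∈ W := by
    intro x
    rw [ValuationSubring.mem_comap, ← IsScalarTower.algebraMap_apply]
    exact hVO x
  obtain ⟨R, _, _, _, _, hRW, hfe⟩ := hV W hWO
  let _ : Algebra R W := ((algebraMap R L).codRestrict W.toSubring hRW).toAlgebra
  have hRWL : IsScalarTower R W L := IsScalarTower.of_algebraMap_eq fun r => rfl
  let _ : Algebra R N := ((algebraMap L N).comp (algebraMap R L)).toAlgebra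
  have hRLN : IsScalarTower R L N := IsScalarTower.of_algebraMap_eq fun r => rfl
  let _ : Algebra W N := ((algebraMap L N).comp (algebraMap W L)).toAlgebra
  have hWLN : IsScalarTower W L N := IsScalarTower.of_algebraMap_eq fun r => rfl
  have hic : IsIntegrallyClosed W := inferInstance
  have het : Algebra.Etale W (integralClosure W N) :=
    etale_integralClosure_of_etale R W L N hfe.2
  -- the derivation preserves `W`
  have hBW : ∀ c : integralClosure O L, algebraMap (integralClosure O L) L c ∈ W := by
    intro c
    have h1 : IsIntegral W (c : L) := by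
      let _ : Algebra O W := ((algebraMap O L).codRestrict W.toSubring hWO).toAlgebra
      have : IsScalarTower O W L := IsScalarTower.of_algebraMap_eq fun r => rfl
      exact IsIntegral.tower_top c.2
    obtain ⟨w, hw⟩ := IsIntegrallyClosed.isIntegral_iff.1 h1
    change (c : L) ∈ W
    rw [← hw]
    exact w.2
  have hD1W : ∀ x ∈ W, D1 x ∈ W := by
    refine mem_valuation_of_preserves (integralClosure O L) L W hBW D1 ?_
    intro c
    exact hBW ⟨D1 (c : L), hD1B c c.2⟩
  have hfin : IsIntegral W (D b) := by
    refine isIntegral_derivation_of_etale W L N D ?_ b ?_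
    · rintro ⟨x, hx⟩
      exact ⟨⟨D1 x, hD1W x hx⟩, hDD x⟩
    · let _ : Algebra O W := ((algebraMap O L).codRestrict W.toSubring hWO).toAlgebra
      have : IsScalarTower O W N := IsScalarTower.of_algebraMap_eq fun r =>
        IsScalarTower.algebraMap_apply O L N r
      exact IsIntegral.tower_top hb
  apply hVD
  have h1 : IsIntegral V (D b) := by
    obtain ⟨q, hq, hq0⟩ := hfin
    let γ : W →+* V := ((algebraMap L N).comp (algebraMap W L)).codRestrict V.toSubring
      (fun w => w.2)
    refine ⟨q.map γ, hq.map _, ?_⟩
    rw [Polynomial.eval₂_map]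
    exact hq0
  obtain ⟨w, hw⟩ := IsIntegrallyClosed.isIntegral_iff.1 h1
  rw [← hw]
  exact w.2

end Pool.Agent.LibZ96
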