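import Pool.Agent.LibZ96.W3b
import Pool.Agent.LibHP.S1
import Pool.Agent.LibHP.S2

/-!
THEOREM Z for the weak Hilbert property. Unramified extensions of a proper variety stay unramified
over the codimension one points of `X` over which the function field of the variety is unramified.
-/

set_option autoImplicit false

open AlgebraicGeometry CategoryTheory

namespace Pool.Agent.LibZ96

open Pool.Agent.LibHP

/-- The centre of a valuation ring on a proper variety. -/
theorem exists_center {k : Type} [Field k] {Z : Scheme.{0}} [IsIntegral Z]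
    (z : Z ⟶ Spec (CommRingCat.of k)) [IsProper z] (V : ValuationSubring Z.functionField)
    (hk : ∀ c : k, toStalk z (genericPoint Z) c ∈ V) :
    ∃ p : Z, ∀ (U : Z.Opens) (_ : p ∈ U) (hg : genericPoint Z ∈ U) (s : Γ(Z, U)),
      Z.presheaf.germ U (genericPoint Z) hg s ∈ V := by
  let κ : k →+* V := (toStalk z (genericPoint Z)).codRestrict V.toSubring hk
  let i₁ : Spec (CommRingCat.of Z.functionField) ⟶ Z := Z.fromSpecStalk (genericPoint Z)
  let i₂ : Spec (CommRingCat.of V) ⟶ Spec (CommRingCat.of k) :=
    Spec.map (CommRingCat.ofHom κ)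
  have hsq : CommSq i₁ (Spec.map (CommRingCat.ofHom (algebraMap V Z.functionField))) z i₂ := by
    refine ⟨?_⟩
    rw [← Spec.map_comp]
    exact S1a_fromSpecStalk z (genericPoint Z)
  have hex : ValuativeCriterion.Existence z := by
    have h := UniversallyClosed.eq_valuativeCriterion
    have h2 : (@UniversallyClosed) z := inferInstance
    rw [h] at h2
    exact h2.1
  obtain ⟨⟨l, hl1, hl2⟩⟩ := hex ⟨V, Z.functionField, i₁, i₂, hsq⟩
  refine ⟨l (IsLocalRing.closedPoint V), ?_⟩
  intro U hp hg s
  have hle : ⊤ ≤ l ⁻¹ᵁ U := by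
    intro q _
    have h1 : q ⤳ IsLocalRing.closedPoint V := IsLocalRing.specializes_closedPoint q
    exact h1.mem_open (l ⁻¹ᵁ U).isOpen hp
  have hl1' : Spec.map (CommRingCat.ofHom (algebraMap V Z.functionField)) ≫ l = i₁ := hl1
  have hle1 := S1a_le (genericPoint Z) (inferInstanceAs (Subsingleton (PrimeSpectrum Z.functionField)))
    U hg
  have h1 : i₁.appLE U ⊤ hle1 = l.appLE U ⊤ hle ≫
      (Spec.map (CommRingCat.ofHom (algebraMap V Z.functionField))).appLE ⊤ ⊤ le_rfl := by
    rw [Scheme.Hom.appLE_comp_appLE]
    congr 1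
    exact hl1'.symm
  have h2 : (Spec.map (CommRingCat.ofHom (algebraMap V Z.functionField))).appLE ⊤ ⊤ le_rfl ≫
      (Scheme.ΓSpecIso (CommRingCat.of Z.functionField)).hom =
      (Scheme.ΓSpecIso (CommRingCat.of V)).hom ≫
        CommRingCat.ofHom (algebraMap V Z.functionField) := by
    have := Scheme.ΓSpecIso_naturality (CommRingCat.ofHom (algebraMap V Z.functionField))
    rw [Scheme.Hom.appTop, Scheme.Hom.app_eq_appLE] at this
    exact this
  have h3 := S1a_stalk_appLE Z (genericPoint Z) U hg hle1
  have h4 : Z.presheaf.germ U (genericPoint Z) hg =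
      (l.appLE U ⊤ hle ≫ (Scheme.ΓSpecIso (CommRingCat.of V)).hom) ≫
        CommRingCat.ofHom (algebraMap V Z.functionField) := by
    rw [← h3]
    exact (congrArg (· ≫ (Scheme.ΓSpecIso (CommRingCat.of Z.functionField)).hom) h1).trans
      ((Category.assoc _ _ _).trans ((congrArg (l.appLE U ⊤ hle ≫ ·) h2).trans
        (Category.assoc _ _ _).symm))
  have h5 : Z.presheaf.germ U (genericPoint Z) hg s =
      (((l.appLE U ⊤ hle ≫ (Scheme.ΓSpecIso (CommRingCat.of V)).hom) s : V) : Z.functionField) :=
    ConcreteCategory.congr_hom h4 s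
  rw [h5]
  exact SetLike.coe_mem _

/-- **Row W3.** -/
theorem presAt_comp {k : Type} [Field k] [CharZero k] {X Z : Scheme.{0}} [IsIntegral X]
    [IsIntegral Z] (f : X ⟶ Spec (CommRingCat.of k)) [Smooth f]
    (z : Z ⟶ Spec (CommRingCat.of k)) [IsProper z] (φ : X.functionField →+* Z.functionField)
    (hφfin : φ.Finite)
    (hφ : ∀ c : k, φ (toStalk f (genericPoint X) c) = toStalk z (genericPoint Z) c) {N : Type}
    [Field N] (ν : Z.functionField →+* N) (hν : ν.Finite) (hcov : S1a_Cov ν) (y : X)
    (hy : ringKrullDim (X.presheaf.stalk y) = 1) (h : PresAt φ y) : PresAt (ν.comp φ) y := by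
  have hdvr := isDiscreteValuationRing_stalk f y hy
  let _ : Algebra X.functionField Z.functionField := φ.toAlgebra
  have hfd : FiniteDimensional X.functionField Z.functionField := hφfin
  let _ : Algebra (X.presheaf.stalk y) Z.functionField := (stalkTo φ y).toAlgebra
  have ht1 : IsScalarTower (X.presheaf.stalk y) X.functionField Z.functionField :=
    IsScalarTower.of_algebraMap_eq fun a => rfl
  let _ : Algebra Z.functionField N := ν.toAlgebra
  have hfd2 : FiniteDimensional Z.functionField N := hν
  let _ : Algebra (X.presheaf.stalk y) N := (stalkTo (ν.comp φ) y).toAlgebra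
  have ht2 : IsScalarTower (X.presheaf.stalk y) Z.functionField N :=
    IsScalarTower.of_algebraMap_eq fun a => rfl
  have hgen : toStalk f (genericPoint X) = (algebraMap (X.presheaf.stalk y) X.functionField).comp
      (toStalk f y) := by
    have h1 : X.presheaf.germ ⊤ y trivial ≫ X.presheaf.stalkSpecializes
        ((genericPoint_spec X).specializes trivial) = X.presheaf.germ ⊤ (genericPoint X) trivial :=
      TopCat.Presheaf.germ_stalkSpecializes _ _ _
    rw [toStalk, ← h1]
    rfl
  have hcz : CharZero X.functionField :=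
    charZero_of_injective_ringHom (toStalk f (genericPoint X)).injective
  intro D hD b hb
  refine isIntegral_derivation_of_tower (X.presheaf.stalk y) X.functionField Z.functionField N h
    ?_ D hD b hb
  intro V hV
  obtain ⟨p, hp⟩ := exists_center z V (by
    intro c
    rw [← hφ c, hgen]
    exact hV (toStalk f y c))
  obtain ⟨U, hU, hpU, hfe⟩ := hcov p
  have hne : Nonempty U := ⟨⟨p, hpU⟩⟩
  have hg : genericPoint Z ∈ U :=
    ((genericPoint_spec Z).mem_open_set_iff U.isOpen).mpr (by simpa using ⟨p, hpU⟩)
  have hfr := functionField_isFractionRing_of_isAffineOpen Z U hU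
  exact ⟨Γ(Z, U), inferInstance, inferInstance, inferInstance, hfr, fun r => hp U hpU hg r, hfe⟩

end Pool.Agent.LibZ96
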